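import Pool.Agent.H728R2.LocalForm2

/-!
# Reductive operators quasi-similar to normal operators are normal

Let `A` be a bounded operator on a complex Hilbert space which is quasi-similar to a normal operator
and such that the weakly closed algebra generated by `A` and `1` is reductive. Then `A` is normal.
-/

set_option autoImplicit false
set_option linter.unusedSectionVars false
open scoped InnerProductSpace Topology

namespace Pool.Agent.Results.MP_65e938_an.ReductiveNormal

open Pool.Agent.H728R2

universe u v

section Defs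

variable {H : Type u} [NormedAddCommGroup H] [InnerProductSpace ℂ H]
  {K : Type v} [NormedAddCommGroup K] [InnerProductSpace ℂ K]

/-- A quasi-affinity: an injective bounded linear map with dense range. -/
def IsQuasiAffinity (X : H →L[ℂ] K) : Prop := Function.Injective X ∧ DenseRange X

/-- `A` and `B` are quasi-similar: there are quasi-affinities `X`, `Y` with `X A = B X` and
`A Y = Y B`. -/
def QuasiSimilar (A : H →L[ℂ] H) (B : K →L[ℂ] K) : Prop :=
  ∃ (X : H →L[ℂ] K) (Y : K →L[ℂ] H), IsQuasiAffinity X ∧ IsQuasiAffinity Y ∧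
    X.comp A = B.comp X ∧ A.comp Y = Y.comp B

/-- The weakly closed algebra generated by `A` and the identity: the closure of the set of
polynomials in `A` in the weak operator topology (basic neighbourhoods are given by finitely many
pairs of vectors and an `ε > 0`). -/
def weakAlgebra (A : H →L[ℂ] H) : Set (H →L[ℂ] H) :=
  {S | ∀ (n : ℕ) (x y : Fin n → H) (ε : ℝ), 0 < ε →
    ∃ p : Polynomial ℂ, ∀ i : Fin n, ‖⟪y i, (S - Polynomial.aeval A p) (x i)⟫_ℂ‖ < ε}

/-- A set of operators is reductive if every closed subspace invariant under all its members is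
also invariant under all their adjoints. -/
def IsReductive [CompleteSpace H] (𝔄 : Set (H →L[ℂ] H)) : Prop :=
  ∀ M : Submodule ℂ H, IsClosed (M : Set H) → (∀ S ∈ 𝔄, ∀ x ∈ M, S x ∈ M) →
    ∀ S ∈ 𝔄, ∀ x ∈ M, ContinuousLinearMap.adjoint S x ∈ M

end Defs

variable {H : Type u} [NormedAddCommGroup H] [InnerProductSpace ℂ H] [CompleteSpace H]
  {K : Type v} [NormedAddCommGroup K] [InnerProductSpace ℂ K] [CompleteSpace K]

theorem aeval_mem {A : H →L[ℂ] H} {M : Submodule ℂ H} (hA : ∀ x ∈ M, A x ∈ M) (p : Polynomial ℂ) :
    ∀ x ∈ M, (Polynomial.aeval A p) x ∈ M := by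
  intro x hx
  induction p using Polynomial.induction_on' with
  | add p q hp hq =>
    rw [map_add, add_apply]
    exact M.add_mem hp hq
  | monomial n c =>
    rw [Polynomial.aeval_monomial, mul_apply_eq_comp, ContinuousLinearMap.algebraMap_apply]
    refine M.smul_mem c ?_
    induction n with
    | zero => simpa using hx
    | succ n ih => rw [pow_succ', mul_apply_eq_comp]; exact hA _ ih

/-- A closed subspace invariant under `A` is invariant under the weakly closed algebra. -/
theorem weakAlgebra_mem {A : H →L[ℂ] H} {M : Submodule ℂ H} (hM : IsClosed (M : Set H))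
    (hA : ∀ x ∈ M, A x ∈ M) : ∀ S ∈ weakAlgebra A, ∀ x ∈ M, S x ∈ M := by
  intro S hS x hx
  have : CompleteSpace M := hM.completeSpace_coe
  rw [← Submodule.orthogonal_orthogonal M, Submodule.mem_orthogonal]
  intro y hy
  rw [← norm_eq_zero]
  by_contra hne
  have hpos : 0 < ‖⟪y, S x⟫_ℂ‖ := lt_of_le_of_ne (norm_nonneg _) (Ne.symm hne)
  obtain ⟨p, hp⟩ := hS 1 (fun _ => x) (fun _ => y) _ hpos
  have h1 := hp 0
  rw [sub_apply, inner_sub_right] at h1
  rw [Submodule.mem_orthogonal'] at hy
  rw [hy _ (aeval_mem hA p x hx), sub_zero] at h1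
  exact lt_irrefl _ h1

theorem self_mem_weakAlgebra (A : H →L[ℂ] H) : A ∈ weakAlgebra A := by
  intro n x y ε hε
  refine ⟨Polynomial.X, fun i => ?_⟩
  simpa using hε

/-- For a reductive operator, the projection onto an invariant subspace commutes with it. -/
theorem proj_comm {A : H →L[ℂ] H} (hred : IsReductive (weakAlgebra A)) (M : Submodule ℂ H)
    [CompleteSpace M] (hM : IsClosed (M : Set H)) (hA : ∀ x ∈ M, A x ∈ M) (x : H) :
    M.starProjection (A x) = A (M.starProjection x) := by
  have hadj : ∀ x ∈ M, ContinuousLinearMap.adjoint A x ∈ M :=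
    hred M hM (weakAlgebra_mem hM hA) A (self_mem_weakAlgebra A)
  have hperp : ∀ x ∈ Mᗮ, A x ∈ Mᗮ := by
    intro x hx
    rw [Submodule.mem_orthogonal] at hx ⊢
    intro y hy
    rw [← ContinuousLinearMap.adjoint_inner_left]
    exact hx _ (hadj y hy)
  have h1 : x = M.starProjection x + (x - M.starProjection x) := by abel
  have h2 : x - M.starProjection x ∈ Mᗮ := Submodule.sub_starProjection_mem_orthogonal x
  have h3 : M.starProjection x ∈ M := Submodule.starProjection_apply_mem M x
  conv_lhs => rw [h1]
  rw [map_add, map_add, Submodule.starProjection_eq_self_iff.2 (hA _ h3),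
    (Submodule.starProjection_apply_eq_zero_iff M).2 (hperp _ h2), add_zero]

/-- locality of the sesquilinear form attached to `Y` -/
theorem isLocal {A : H →L[ℂ] H} (hred : IsReductive (weakAlgebra A)) {N : K →L[ℂ] K}
    {X : H →L[ℂ] K} {Y : K →L[ℂ] H} (hX : Function.Injective X)
    (hXA : X.comp A = N.comp X) (hAY : A.comp Y = Y.comp N) (a : K →L[ℂ] K)
    (ha : ∀ Z : K →L[ℂ] K, Commute Z N → Commute Z a) (haN : Commute N a) : IsLocal a Y := by
  intro f g hf hg hfg y y'
  have hXA' : ∀ x, X (A x) = N (X x) := fun x => DFunLike.congr_fun hXA x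
  have hAY' : ∀ x, A (Y x) = Y (N x) := fun x => DFunLike.congr_fun hAY x
  set F := cfc f a with hF
  set G := cfc g a with hG
  have hGF : G * F = 0 := by
    rw [hF, hG, ← cfc_mul g f a hg.continuousOn hf.continuousOn]
    have : (fun x => g x * f x) = fun _ => (0:ℝ) := by
      funext x; rw [mul_comm]; exact hfg x
    rw [this, cfc_const_zero]
  have hNF : Commute N F := (haN.symm.cfc_real f).symm
  -- the closure of the range of `Y F`
  set L : Submodule ℂ H := (LinearMap.range ((Y.comp F : K →L[ℂ] H) : K →ₗ[ℂ] H)).topologicalClosure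
    with hL
  have hLc : IsClosed (L : Set H) := Submodule.isClosed_topologicalClosure _
  have : CompleteSpace L := hLc.completeSpace_coe
  have hLA : ∀ x ∈ L, A x ∈ L := by
    have h1 : ∀ x ∈ LinearMap.range ((Y.comp F : K →L[ℂ] H) : K →ₗ[ℂ] H), A x ∈ L := by
      rintro _ ⟨k, rfl⟩
      apply Submodule.le_topologicalClosure
      refine ⟨N k, ?_⟩
      change Y (F (N k)) = A (Y (F k))
      have : F (N k) = N (F k) := (DFunLike.congr_fun hNF.eq k).symm
      rw [hAY', this]
    have h2 : L ≤ L.comap (A : H →ₗ[ℂ] H) := by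
      rw [hL]
      apply Submodule.topologicalClosure_minimal
      · exact fun x hx => h1 x hx
      · exact hLc.preimage A.continuous
    exact fun x hx => h2 hx
  have hPA := proj_comm hred L hLc hLA
  -- `G X` vanishes on `L`
  have hXY : Commute (X.comp Y) N := by
    ext k
    change X (Y (N k)) = N (X (Y k))
    rw [← hXA', hAY']
  have hXYG : Commute (X.comp Y) G := ((ha _ hXY).symm.cfc_real g).symm
  have hGX : ∀ x ∈ L, G (X x) = 0 := by
    have h1 : ∀ x ∈ LinearMap.range ((Y.comp F : K →L[ℂ] H) : K →ₗ[ℂ] H), G (X x) = 0 := by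
      rintro _ ⟨k, rfl⟩
      change G (X (Y (F k))) = 0
      have e1 : X (Y (G (F k))) = G (X (Y (F k))) := DFunLike.congr_fun hXYG.eq (F k)
      have e2 : G (F k) = 0 := DFunLike.congr_fun hGF k
      rw [← e1, e2, map_zero, map_zero]
    have h2 : L ≤ LinearMap.ker ((G.comp X : H →L[ℂ] K) : H →ₗ[ℂ] K) := by
      rw [hL]
      apply Submodule.topologicalClosure_minimal
      · exact fun x hx => h1 x hx
      · exact ContinuousLinearMap.isClosed_ker (G.comp X)
    exact fun x hx => h2 hx
  -- `X P Y` commutes with `N`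
  have hZ : Commute (X.comp (L.starProjection.comp Y)) N := by
    ext k
    change X (L.starProjection (Y (N k))) = N (X (L.starProjection (Y k)))
    rw [← hXA', ← hPA, hAY']
  have hZG : Commute (X.comp (L.starProjection.comp Y)) G := ((ha _ hZ).symm.cfc_real g).symm
  have h3 : X (L.starProjection (Y (G y'))) = 0 := by
    have e1 : X (L.starProjection (Y (G y'))) = G (X (L.starProjection (Y y'))) :=
      DFunLike.congr_fun hZG.eq y'
    rw [e1]
    exact hGX _ (Submodule.starProjection_apply_mem L _)
  have h4 : L.starProjection (Y (G y')) = 0 := hX (by rw [h3, map_zero])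
  have h5 : Y (G y') ∈ Lᗮ := (Submodule.starProjection_apply_eq_zero_iff L).1 h4
  rw [Submodule.mem_orthogonal] at h5
  exact h5 _ (Submodule.le_topologicalClosure _ ⟨y, rfl⟩)

/-- Let `A` be an operator on a complex Hilbert space that is quasi-similar to a normal operator
and generates a reductive weakly closed algebra. Then `A` is normal. -/
theorem result (A : H →L[ℂ] H) (N : K →L[ℂ] K) (hN : IsStarNormal N) (hq : QuasiSimilar A N)
    (hred : IsReductive (weakAlgebra A)) : IsStarNormal A := by
  obtain ⟨X, Y, ⟨hX, -⟩, ⟨-, hY⟩, hXA, hAY⟩ := hq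
  have hAY' : ∀ x, A (Y x) = Y (N x) := fun x => DFunLike.congr_fun hAY x
  have hNN : Commute N (star N) := hN.star_comm_self.symm
  have hcomm : ∀ Z : K →L[ℂ] K, Commute Z N → Commute Z (star N) := fun Z hZ =>
    hN.commute_star_right hZ
  -- real part
  set a : K →L[ℂ] K := N + star N with ha
  set b : K →L[ℂ] K := Complex.I • (N - star N) with hb
  have hasa : IsSelfAdjoint a := by
    rw [IsSelfAdjoint, ha, star_add, star_star, add_comm]
  have hbsa : IsSelfAdjoint b := by
    rw [IsSelfAdjoint, hb, star_smul, star_sub, star_star]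
    simp only [RCLike.star_def, Complex.conj_I, neg_smul, ← smul_neg, neg_sub]
  have la : IsLocal a Y := isLocal hred hX hXA hAY a
    (fun Z hZ => hZ.add_right (hcomm Z hZ)) ((Commute.refl N).add_right hNN)
  have lb : IsLocal b Y := isLocal hred hX hXA hAY b
    (fun Z hZ => (hZ.sub_right (hcomm Z hZ)).smul_right _)
    (((Commute.refl N).sub_right hNN).smul_right _)
  have key : ∀ y y' : K, ⟪Y ((star N) y), Y y'⟫_ℂ = ⟪Y y, Y (N y')⟫_ℂ := by
    intro y y'
    have h1 := local_comm hasa la y y'
    have h2 := local_comm hbsa lb y y'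
    have ea : ∀ z, a z = N z + (star N) z := fun z => rfl
    have eb : ∀ z, b z = Complex.I • (N z - (star N) z) := fun z => rfl
    rw [ea, ea, map_add, map_add, inner_add_left, inner_add_right] at h1
    rw [eb, eb, map_smul, map_smul, map_sub, map_sub, inner_smul_left, inner_smul_right,
      inner_sub_left, inner_sub_right, Complex.conj_I] at h2
    have h3 : -(⟪Y (N y), Y y'⟫_ℂ - ⟪Y ((star N) y), Y y'⟫_ℂ)
        = ⟪Y y, Y (N y')⟫_ℂ - ⟪Y y, Y ((star N) y')⟫_ℂ := by
      have hI : Complex.I ≠ 0 := Complex.I_ne_zero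
      apply mul_left_cancel₀ hI
      linear_combination h2
    linear_combination (h1 + h3) / 2
  have hadj : ∀ y, ContinuousLinearMap.adjoint A (Y y) = Y ((star N) y) := by
    intro y
    apply ext_inner_right ℂ
    intro z
    rw [ContinuousLinearMap.adjoint_inner_left]
    induction z using hY.induction_on with
    | hp => exact isClosed_eq (by fun_prop) (by fun_prop)
    | ih y' => rw [hAY', key]
  constructor
  have hstar : star A = ContinuousLinearMap.adjoint A := rfl
  have hfun : ((star A * A : H →L[ℂ] H) : H → H) = (A * star A : H →L[ℂ] H) := by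
    apply hY.equalizer (by fun_prop) (by fun_prop)
    funext y
    change (star A) (A (Y y)) = A ((star A) (Y y))
    rw [hstar, hAY', hadj, hadj, hAY']
    have := DFunLike.congr_fun hN.star_comm_self.eq y
    exact congrArg Y this
  exact DFunLike.coe_injective hfun

end Pool.Agent.Results.MP_65e938_an.ReductiveNormal
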